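import Pool.Agent.X119.Dens
import Pool.Agent.X119.Cnt

/-!
# The ratio `R (x, h)` is locally constant at almost all scales around almost all primes

For almost all primes `p` in every short interval `(X, X + Y]`, `X ^ θ ≤ Y ≤ X / 2`, and for all dyadic
`log X ≤ y ≤ Y` with at most `B` exceptions there is a constant `lam` with `R (x, h) = lam + O (δ y / h)` for ALL
intervals `(x, x + h]` contained in `[p - y, p + y]`.
-/

set_option autoImplicit false

namespace Pool.Agent.Results.MP_293bbf_nt.LocalConstants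

open Finset Filter

/-- The ratio `R (x, h) = (π (x + h) - π (x)) / (h / log x)`. -/
noncomputable def R (x h : ℕ) : ℝ :=
  ((Nat.primeCounting (x + h) : ℝ) - Nat.primeCounting x) / (h / Real.log x)

/-- For some constant `lam` between `0` and `C` the ratio `R (x, h)` differs from `lam` by at most `δ y / h` for all
intervals `(x, x + h]` contained in `[p - y, p + y]`. -/
def NearConstant (C δ : ℝ) (p y : ℕ) : Prop :=
  ∃ lam : ℝ, 0 ≤ lam ∧ lam ≤ C ∧ ∀ x h : ℕ, 1 ≤ h → p ≤ x + y → x + h ≤ p + y →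
    |R x h - lam| ≤ δ * y / h

open Classical in
/-- the number of the dyadic scales `log X ≤ 2 ^ j ≤ Y` at which `R` is not nearly constant around `p` -/
noncomputable def exceptions (C δ : ℝ) (X Y p : ℕ) : ℕ :=
  ((range (Nat.log 2 Y + 1)).filter (fun j => Real.log X ≤ (2 : ℝ) ^ j ∧
    ¬ NearConstant C δ p (2 ^ j))).card

lemma near_of_const {C δ : ℝ} (hC : 0 < C) (hδ : 0 < δ) {X Y p y : ℕ} (hY : 2 * Y ≤ X) (hy : y ≤ Y)
    (hp : X < p) (hp2 : p ≤ X + Y) (hlog : 2 ≤ Real.log X) (hlog2 : 2 * C / δ ≤ Real.log X)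
    (h : Pool.Agent.X119.Dens.ConstantDensity C (Real.log X) δ p y) : NearConstant C (3 * δ) p y := by
  obtain ⟨lam, l0, l1, hl⟩ := h
  refine ⟨lam, l0, l1, ?_⟩
  intro x h hh hx hxh
  have hL0 : 0 < Real.log X := by linarith
  have hX1 : 1 ≤ X := by
    by_contra hc
    have : X = 0 := by omega
    rw [this, Nat.cast_zero, Real.log_zero] at hlog
    linarith
  have hXr : (0 : ℝ) < X := by exact_mod_cast hX1
  have hh0 : (0 : ℝ) < h := by exact_mod_cast hh
  have hx1 : X ≤ 2 * x := by omega
  have hx2 : x ≤ 2 * X := by omega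
  have hxr : (X : ℝ) ≤ 2 * x := by exact_mod_cast hx1
  have hxr2 : (x : ℝ) ≤ 2 * X := by exact_mod_cast hx2
  have hx0 : (0 : ℝ) < x := by linarith
  have hlog2' : Real.log 2 ≤ 1 := by
    have := Real.log_two_lt_d9
    linarith
  have hlx1 : Real.log X ≤ Real.log x + 1 := by
    have := Real.log_le_log hXr hxr
    rw [Real.log_mul (by norm_num) hx0.ne'] at this
    linarith
  have hlx2 : Real.log x ≤ Real.log X + 1 := by
    have := Real.log_le_log hx0 hxr2
    rw [Real.log_mul (by norm_num) hXr.ne'] at this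
    linarith
  have hlx0 : 0 < Real.log x := by linarith
  -- the count
  obtain ⟨N, hN⟩ : ∃ N : ℝ, N = Pool.Agent.X119.Dens.cnt x (x + h) := ⟨_, rfl⟩
  have h1 := hl x (x + h) hx (Nat.le_add_right _ _) hxh
  have e0 : (((x + h : ℕ) : ℝ) - x) = h := by push_cast; ring
  rw [e0, ← hN] at h1
  have hR : R x h = N * Real.log x / h := by
    unfold R
    rw [Pool.Agent.X119.Cnt.pi_sub, hN]
    unfold Pool.Agent.X119.Dens.cnt
    field_simp
  have hy0 : (0 : ℝ) ≤ y := Nat.cast_nonneg _
  have hhy : (h : ℝ) ≤ 2 * y := by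
    have : h ≤ 2 * y := by omega
    exact_mod_cast this
  -- `N log X / h` is near `lam`
  have h2 : |N * Real.log X / h - lam| ≤ δ * y / h := by
    have e1 : N * Real.log X / h - lam = (N - lam * h / Real.log X) * (Real.log X / h) := by
      field_simp
    rw [e1, abs_mul, abs_of_pos (by positivity : 0 < Real.log X / h)]
    calc |N - lam * h / Real.log X| * (Real.log X / h) ≤ δ * y / Real.log X * (Real.log X / h) := by gcongr
      _ = δ * y / h := by field_simp
  have h3 : |R x h - N * Real.log X / h| ≤ (N * Real.log X / h) * (1 / Real.log X) := by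
    have hN0 : 0 ≤ N := by rw [hN]; exact Nat.cast_nonneg _
    have e2 : R x h - N * Real.log X / h = (N / h) * (Real.log x - Real.log X) := by
      rw [hR]
      ring
    rw [e2, abs_mul, abs_of_nonneg (by positivity : 0 ≤ N / h)]
    have h4 : |Real.log x - Real.log X| ≤ 1 := by
      rw [abs_le]
      constructor <;> linarith
    calc N / h * |Real.log x - Real.log X| ≤ N / h * 1 := by gcongr
      _ = (N * Real.log X / h) * (1 / Real.log X) := by field_simp
  have h5 : N * Real.log X / h ≤ C + δ * y / h := by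
    have := (abs_le.1 h2).2
    linarith
  have h6 : C * (1 / Real.log X) ≤ δ * y / h := by
    have h7 : C * (1 / Real.log X) ≤ δ / 2 := by
      rw [mul_one_div, div_le_div_iff₀ hL0 (by norm_num)]
      rw [div_le_iff₀ hδ] at hlog2
      linarith
    refine h7.trans ?_
    rw [div_le_div_iff₀ (by norm_num) hh0]
    nlinarith
  have h7 : δ * y / h * (1 / Real.log X) ≤ δ * y / h := by
    apply mul_le_of_le_one_right (by positivity)
    rw [div_le_one hL0]
    linarith
  have h8 : |R x h - lam| ≤ |R x h - N * Real.log X / h| + |N * Real.log X / h - lam| := abs_sub_le _ _ _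
  have h9 : (N * Real.log X / h) * (1 / Real.log X) ≤ (C + δ * y / h) * (1 / Real.log X) := by gcongr
  have e3 : (C + δ * y / h) * (1 / Real.log X) = C * (1 / Real.log X) + δ * y / h * (1 / Real.log X) := by ring
  have h7' : δ * y / h * (1 / Real.log X) ≤ δ * y / h / 2 := by
    rw [div_eq_mul_one_div (δ * y / h) 2]
    apply mul_le_mul_of_nonneg_left _ (by positivity)
    apply one_div_le_one_div_of_le (by norm_num) hlog
  have h6' : C * (1 / Real.log X) ≤ δ * y / h := h6
  have e4 : 3 * δ * y / h = δ * y / h + δ * y / h + δ * y / h := by ring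
  rw [e4]
  have hnn : 0 ≤ δ * y / h := by positivity
  linarith

open Classical in
/-- **The ratio is locally constant at almost all scales.** -/
theorem result (θ : ℝ) (hθ : 0 < θ) (hθ1 : θ ≤ 1) (ε : ℝ) (hε : 0 < ε) :
    ∃ C : ℝ, 1 ≤ C ∧ ∀ δ : ℝ, 0 < δ → ∃ B : ℕ, ∀ᶠ X : ℕ in atTop, ∀ Y : ℕ, (X : ℝ) ^ θ ≤ Y → 2 * Y ≤ X →
      (((Ioc X (X + Y)).filter (fun p => p.Prime ∧ B < exceptions C δ X Y p)).card : ℝ) ≤
        ε * Y / Real.log X := by
  obtain ⟨C, hC, h⟩ := Pool.Agent.X119.Dens.dens θ hθ hθ1 ε hε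
  refine ⟨C, hC, fun δ hδ => ?_⟩
  obtain ⟨B, hB⟩ := h (δ / 3) (by positivity)
  refine ⟨B, ?_⟩
  have hlogX : Tendsto (fun X : ℕ => Real.log (X : ℝ)) atTop atTop :=
    Real.tendsto_log_atTop.comp tendsto_natCast_atTop_atTop
  filter_upwards [hB, hlogX.eventually_ge_atTop 2, hlogX.eventually_ge_atTop (2 * C / (δ / 3))]
    with X hX hlog hlog2 Y hXY hYX
  have hL0 : 0 < Real.log X := by linarith
  refine le_trans (Nat.cast_le.2 (card_le_card ?_)) (hX Y hXY (by omega) (Real.log X) le_rfl (by linarith))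
  intro p hp
  rw [mem_filter] at hp ⊢
  refine ⟨hp.1, hp.2.1, fun hall => absurd hp.2.2 (not_lt.2 (le_trans ?_ hall.2))⟩
  have hpm := mem_Ioc.1 hp.1
  unfold exceptions Pool.Agent.X119.Dens.badScales
  apply card_le_card
  intro j hj
  rw [mem_filter, mem_range] at hj ⊢
  refine ⟨hj.1, hj.2.1, fun hc => hj.2.2 ?_⟩
  have hjY : 2 ^ j ≤ Y := by
    have h1 : j ≤ Nat.log 2 Y := by omega
    have hY0 : Y ≠ 0 := by
      rintro rfl
      have hX0 : (0 : ℝ) < X := by
        have : (0 : ℕ) < X := by
          by_contra hc0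
          have : X = 0 := by omega
          rw [this, Nat.cast_zero, Real.log_zero] at hlog
          linarith
        exact_mod_cast this
      have : 0 < (X : ℝ) ^ θ := Real.rpow_pos_of_pos hX0 θ
      rw [Nat.cast_zero] at hXY
      linarith
    exact Nat.pow_le_of_le_log hY0 h1
  have h3 := near_of_const (by linarith) (by positivity : 0 < δ / 3) hYX hjY hpm.1 hpm.2 hlog hlog2 hc
  rwa [show 3 * (δ / 3) = δ by ring] at h3

end Pool.Agent.Results.MP_293bbf_nt.LocalConstants
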