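import Pool.Agent.X30.Gen

set_option autoImplicit false

/-!
# Maier's deviations at several powers of the logarithm satisfy no linear inequality

Let `R(x, y) = (π(x + y) - π(x)) / (y / log x)` be the quantity of the problem. Question Q1 is whether the deviations
`R(x, y) - 1`, which do not tend to `0` for `y = (log x)^a` (Maier 1985), become small, uniformly in `y ≥ (log x)^N`, as
`N` grows. Here: for distinct exponents `a_1, ..., a_k > 0` and ALL real coefficients `c_1, ..., c_k`, not all zero, the
combination `c_1 (R(n, (log n)^(a_1)) - 1) + ... + c_k (R(n, (log n)^(a_k)) - 1)` is at least a constant `δ > 0` for at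
least `X exp (-(log X)^ε)` of the integers `n ≤ X`, for every `ε > 0` and all large `X` (and, with `-c` for `c`, at most
`-δ` for as many `n`). So the only asymptotic linear inequality between the values of `R` at several powers of the
logarithm is the trivial one. In particular, averaging `R` over several exponents, with any weights and however
large the exponents are, does not remove Maier's phenomenon (`c_i ≥ 0`, both signs), and the deviation at one
exponent is not bounded by a multiple of the deviation at another one.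

Method: the rows `n ≡ 0 (mod W)` of a Maier matrix, where `W` is the product of the primes (without exceptional ones) in
`((log X)^u, (log X)^v]` with `v` close to `u`; the main term of the combination is that of the smallest exponent `a_i`
with `c_i ≠ 0`, of the order `log (v/u)^m` where `m = [a_i / u] + 1`, and its sign is `(-1)^(m-1)` times the sign of
`c_i`, which can be prescribed.
-/

namespace Pool.Agent.Results.MP_293bbf_nt.ManyPowersOfTheLogarithm

/-- the quantity `R(x, y)` of the problem -/
noncomputable def R (x y : ℝ) : ℝ :=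
  ((Nat.primeCounting ⌊x + y⌋₊ : ℝ) - Nat.primeCounting ⌊x⌋₊) / (y / Real.log x)

lemma dens_eq (a : ℝ) (ha : 0 < a) (n : ℕ) (hn : 1 ≤ n) :
    Pool.Agent.X30.MT.dens a n = R n ((Real.log n) ^ a) := by
  have hn' : (1 : ℝ) ≤ n := by exact_mod_cast hn
  have hL : 0 ≤ Real.log n := Real.log_nonneg hn'
  have hL' : 0 ≤ (Real.log n) ^ a := Real.rpow_nonneg hL _
  have h1 : (Pool.Agent.X30.MI.win a n : ℝ) =
      (Nat.primeCounting ⌊(n : ℝ) + (Real.log n) ^ a⌋₊ : ℝ) - Nat.primeCounting ⌊(n : ℝ)⌋₊ := by
    rw [Nat.floor_natCast]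
    have h2 : n ≤ ⌊(n : ℝ) + (Real.log n) ^ a⌋₊ := by
      apply Nat.le_floor
      linarith
    have h3 : Nat.primeCounting ⌊(n : ℝ) + (Real.log n) ^ a⌋₊ =
        Nat.primeCounting n + ((Finset.Ioc n ⌊(n : ℝ) + (Real.log n) ^ a⌋₊).filter Nat.Prime).card := by
      simp only [Nat.primeCounting, Nat.primeCounting', Nat.count_eq_card_filter_range]
      rw [← Finset.card_union_of_disjoint]
      · congr 1
        ext p
        simp only [Finset.mem_filter, Finset.mem_range, Finset.mem_union, Finset.mem_Ioc]
        constructor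
        · rintro ⟨h4, h5⟩
          by_cases h6 : p < n + 1
          · exact Or.inl ⟨h6, h5⟩
          · exact Or.inr ⟨⟨by omega, by omega⟩, h5⟩
        · rintro (⟨h4, h5⟩ | ⟨⟨h4, h6⟩, h5⟩)
          · exact ⟨by omega, h5⟩
          · exact ⟨by omega, h5⟩
      · rw [Finset.disjoint_left]
        intro p h4 h5
        have h6 := Finset.mem_range.1 (Finset.mem_filter.1 h4).1
        have h7 := Finset.mem_Ioc.1 (Finset.mem_filter.1 h5).1
        omega
    rw [h3]
    push_cast
    have h4 : Pool.Agent.X30.MI.win a n =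
        ((Finset.Ioc n ⌊(n : ℝ) + (Real.log n) ^ a⌋₊).filter Nat.Prime).card := rfl
    rw [h4]
    ring
  unfold Pool.Agent.X30.MT.dens R
  rcases hL.eq_or_lt with h0 | h0
  · rw [h1, ← h0, Real.zero_rpow ha.ne']
    simp
  · rw [h1, Real.rpow_sub h0, Real.rpow_one]

theorem result (k : ℕ) (a c : Fin k → ℝ) (ha : ∀ i, 0 < a i) (hinj : Function.Injective a) (hc : c ≠ 0)
    (ε : ℝ) (hε : 0 < ε) : ∃ δ : ℝ, 0 < δ ∧ ∃ X₀ : ℝ, ∀ X : ℝ, X₀ ≤ X →
      X * Real.exp (-(Real.log X) ^ ε) ≤
        ({n : ℕ | 1 ≤ n ∧ (n : ℝ) ≤ X ∧ δ ≤ ∑ i, c i * (R n ((Real.log n) ^ a i) - 1)}.ncard : ℝ) := by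
  have hc' : ∃ i ∈ (Finset.univ : Finset (Fin k)), c i ≠ 0 := by
    by_contra h
    push Not at h
    exact hc (funext fun i => h i (Finset.mem_univ i))
  obtain ⟨δ, hδ, X₀, h⟩ := Pool.Agent.X30.MWW.mainG Finset.univ a c (fun i _ => ha i)
    (fun i _ j _ hij h => hij (hinj h)) hc' ε hε
  refine ⟨δ, hδ, max X₀ 0, fun X hX => (h X ((le_max_left _ _).trans hX)).trans (le_of_eq ?_)⟩
  have hX0 : 0 ≤ X := (le_max_right _ _).trans hX
  rw [← Set.ncard_coe_finset]
  congr 2
  ext n
  rw [Finset.mem_coe, Finset.mem_filter, Finset.mem_Icc, and_assoc, Nat.le_floor_iff hX0]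
  refine and_congr_right fun h1 => and_congr_right fun _ => ?_
  have h2 : ∑ i, c i * (Pool.Agent.X30.MT.dens (a i) n - 1) = ∑ i, c i * (R n ((Real.log n) ^ a i) - 1) :=
    Finset.sum_congr rfl fun i _ => by rw [dens_eq (a i) (ha i) n h1]
  rw [h2]

end Pool.Agent.Results.MP_293bbf_nt.ManyPowersOfTheLogarithm
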