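import Mathlib
import Pool.Agent.X26.JF.Loc

/-!
# Uniform prime asymptotics beyond all powers of the logarithm and persistent deviations

1. Every long deviation contains a point of persistent deviation: let `0 ≤ s < s'` and `N` be given. If `x` is large,
`(log x) ^ (N + 3) ≤ y ≤ x` and `R(x, y) > s'`, then there is an integer `n` in `[⌊x⌋, x + y]` such that `(n, n + h]`
contains at least `s h / log n` primes for ALL integers `1 ≤ h ≤ log ^ N n`; similarly for `R(x, y) < s' < s` and at most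
`s h / log n` primes.
2. The assertion of the problem is equivalent to its restriction to `y = (log x) ^ a` with large `x` for each large `a`,
to the same for ONE exponent `a = a(ε)` for each `ε`, and to the nonexistence of persistent deviations of a fixed relative
size `δ` on the lengths up to all powers of `log n`.
-/

set_option autoImplicit false

namespace Pool.Agent.Results.MP_293bbf_nt.PersistenceCriterion

open Filter Topology

/-- `R(x, y) = (π(x + y) - π(x)) / (y / log x)` -/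
noncomputable def R (x y : ℝ) : ℝ :=
  ((Nat.primeCounting ⌊x + y⌋₊ : ℝ) - (Nat.primeCounting ⌊x⌋₊ : ℝ)) / (y / Real.log x)

/-- the number of the primes in `(n, n + h]` -/
def primes (n h : ℕ) : ℕ := ((Finset.Ioc n (n + h)).filter Nat.Prime).card

/-- the assertion of the problem -/
def Uniform : Prop := ∀ ε : ℝ, 0 < ε → ∃ N : ℝ, 1 < N ∧ ∀ x y : ℝ, N ≤ x → Real.log x ^ N ≤ y → y ≤ x →
  |R x y - 1| ≤ ε

/-- for each `ε` and all sufficiently large exponents `a`: `|R(x, (log x) ^ a) - 1| ≤ ε` for large `x` -/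
def LargeExponents : Prop := ∀ ε : ℝ, 0 < ε → ∃ a₀ : ℝ, ∀ a : ℝ, a₀ ≤ a → ∀ᶠ x : ℝ in atTop,
  |R x (Real.log x ^ a) - 1| ≤ ε

/-- for each `ε` there is an exponent `a ≥ 1` with `|R(x, (log x) ^ a) - 1| ≤ ε` for large `x` -/
def OneExponent : Prop := ∀ ε : ℝ, 0 < ε → ∃ a : ℝ, 1 ≤ a ∧ ∀ᶠ x : ℝ in atTop, |R x (Real.log x ^ a) - 1| ≤ ε

/-- for each `δ > 0` there is `N` such that from no `n ≥ N` there are at least `(1 + δ) h / log n` primes in
`(n, n + h]` for all `1 ≤ h ≤ log ^ N n`, or at most `(1 - δ) h / log n` primes in `(n, n + h]` for all these `h` -/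
def NotPersistent : Prop := ∀ δ : ℝ, 0 < δ → ∃ N : ℕ, ∀ n : ℕ, N ≤ n →
  (∃ h : ℕ, 1 ≤ h ∧ (h : ℝ) ≤ Real.log n ^ N ∧ (primes n h : ℝ) < (1 + δ) * h / Real.log n) ∧
  (∃ h : ℕ, 1 ≤ h ∧ (h : ℝ) ≤ Real.log n ^ N ∧ (1 - δ) * h / Real.log n < (primes n h : ℝ))

theorem RR_eq : ∀ a : ℝ, ∀ᶠ x : ℝ in atTop, Pool.Agent.X26.JF.RR a x = R x (Real.log x ^ a) := by
  intro a
  filter_upwards [Real.tendsto_log_atTop.eventually_ge_atTop 1] with x hx
  unfold Pool.Agent.X26.JF.RR R Pool.Agent.X26.JF.df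
  have hl : 0 < Real.log x := by linarith
  have hla : 0 < Real.log x ^ a := Real.rpow_pos_of_pos hl a
  rw [div_div_eq_mul_div, div_mul_eq_mul_div, mul_comm (Real.log x)]

/-- 1. and 2. for the excess, 3. for the deficit, 4. the equivalences. -/
theorem result :
    (∀ (N : ℕ) (s s' : ℝ), 0 ≤ s → s < s' → ∃ x₀ : ℕ, ∀ x y : ℝ, (x₀ : ℝ) ≤ x → Real.log x ^ (N + 3) ≤ y → y ≤ x →
      s' < R x y → ∃ n : ℕ, ⌊x⌋₊ ≤ n ∧ n ≤ ⌊x + y⌋₊ ∧
        ∀ h : ℕ, 1 ≤ h → (h : ℝ) ≤ Real.log n ^ N → s * h / Real.log n ≤ (primes n h : ℝ)) ∧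
    (∀ (N : ℕ) (s s' : ℝ), 0 ≤ s → s' < s → ∃ x₀ : ℕ, ∀ x y : ℝ, (x₀ : ℝ) ≤ x → Real.log x ^ (N + 3) ≤ y → y ≤ x →
      R x y < s' → ∃ n : ℕ, ⌊x⌋₊ ≤ n ∧ n ≤ ⌊x + y⌋₊ ∧
        ∀ h : ℕ, 1 ≤ h → (h : ℝ) ≤ Real.log n ^ N → (primes n h : ℝ) ≤ s * h / Real.log n) ∧
    List.TFAE [Uniform, LargeExponents, OneExponent, NotPersistent] := by
  have hpos : ∀ x y : ℝ, ∀ N : ℕ, (3 : ℝ) ≤ x → Real.log x ^ (N + 3) ≤ y → 0 < y / Real.log x := by
    intro x y N hx hy
    have hl : 0 < Real.log x := Real.log_pos (by linarith)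
    have hy0 : 0 < y := lt_of_lt_of_le (by positivity) hy
    positivity
  refine ⟨fun N s s' hs hss => ?_, fun N s s' hs hss => ?_, ?_⟩
  · obtain ⟨n₀, h⟩ := Pool.Agent.X26.JF.loc_up N hs hss
    refine ⟨max n₀ 3, fun x y hx hy hyx hR => ?_⟩
    have hx3 : (3 : ℝ) ≤ x := le_trans (by exact_mod_cast le_max_right _ _) hx
    refine h x y (le_trans (by exact_mod_cast le_max_left _ _) hx) hy hyx ?_
    unfold R at hR
    rwa [lt_div_iff₀ (hpos x y N hx3 hy)] at hR
  · obtain ⟨n₀, h⟩ := Pool.Agent.X26.JF.loc_dn N hs hss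
    refine ⟨max n₀ 3, fun x y hx hy hyx hR => ?_⟩
    have hx3 : (3 : ℝ) ≤ x := le_trans (by exact_mod_cast le_max_right _ _) hx
    refine h x y (le_trans (by exact_mod_cast le_max_left _ _) hx) hy hyx ?_
    unfold R at hR
    rwa [div_lt_iff₀ (hpos x y N hx3 hy)] at hR
  · have hJ : LargeExponents ↔ Pool.Agent.X26.JF.J := by
      constructor
      · intro h ε hε
        obtain ⟨a₀, ha₀⟩ := h ε hε
        refine ⟨a₀, fun a ha => ?_⟩
        filter_upwards [ha₀ a ha, RR_eq a] with x h1 h2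
        rwa [h2]
      · intro h ε hε
        obtain ⟨a₀, ha₀⟩ := h ε hε
        refine ⟨a₀, fun a ha => ?_⟩
        filter_upwards [ha₀ a ha, RR_eq a] with x h1 h2
        rwa [h2] at h1
    have hO : OneExponent ↔ Pool.Agent.X26.JF.O := by
      constructor
      · intro h ε hε
        obtain ⟨a, ha, ha₀⟩ := h ε hε
        refine ⟨a, ha, ?_⟩
        filter_upwards [ha₀, RR_eq a] with x h1 h2
        rwa [h2]
      · intro h ε hε
        obtain ⟨a, ha, ha₀⟩ := h ε hε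
        refine ⟨a, ha, ?_⟩
        filter_upwards [ha₀, RR_eq a] with x h1 h2
        rwa [h2] at h1
    have hF : Uniform ↔ Pool.Agent.X26.JF.F := Iff.rfl
    have hP : NotPersistent ↔ Pool.Agent.X26.JF.P := Iff.rfl
    rw [hJ, hO, hF, hP]
    exact Pool.Agent.X26.JF.tfae

end Pool.Agent.Results.MP_293bbf_nt.PersistenceCriterion
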