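import Mathlib
import Pool.Agent.X25.TE.Poly

/-!
# `R(x, y)` on average over the translates of thin families, in intervals of polylogarithmic length

The question of `MP_293bbf_nt` is whether `R(x, y) = (π(x + y) - π(x)) / (y / log x)` is close to
`1` for all large `x` and all `(log x)^K ≤ y ≤ x`.  Here `x` runs through a translate `s m + b`,
`m ≤ x₀`, of a thin family, for instance the values `f(m) + b` of a polynomial of any degree: for
all shifts `b ≤ N`, except for at most `N / (log N)^C` of them, the average of `R(s m + b, y)`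
over `m` is close to `1`, simultaneously for all `(log N)^K ≤ y ≤ N`.  The only condition on the
family is that for some `p` its additive energy of order `p` is within a factor `(log N)^C` of
the least possible order of magnitude `x₀^(2p) / N`.

Proof.  The family and the set of shifts meet the primes in a bilinear form.  The product of the
exponential sum over the primes and the kernel of a short interval (minus that of a long one) is
`O(N / (log N)^D)` at ALL points of the circle (Vinogradov's estimate, also near `0`), and it has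
small `L²` norm; Hölder's inequality uses the moment of order `2 p` of the exponential sum of the
family, which is its energy, and Parseval's identity for the shifts.  Long intervals: prime number
theorem.  For polynomials the energy is bounded by Weyl sums.
-/

set_option autoImplicit false

open Finset Polynomial Pool.Agent.X25.TE
open Pool.Agent.H373R2.T7 (energy)

/-- (1) Families of small additive energy of some order `p`.  (2) Values of polynomials. -/
theorem Pool.Agent.Results.MP_293bbf_nt.ThinFamilyTranslates.result (ε : ℝ) (hε : 0 < ε)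
    (hε1 : ε ≤ 1) (C : ℕ) :
    (∀ p : ℕ, 1 ≤ p → ∃ K : ℕ, ∀ N : ℕ, K ≤ N → ∀ (s : ℕ → ℕ) (x : ℕ), 1 ≤ x →
      (∀ m ∈ Icc 1 x, s m ≤ N) →
      (energy p x (fun m => (s m : ℤ)) : ℝ) * N ≤ Real.log N ^ C * (x : ℝ) ^ (2 * p) →
      ∃ E : Finset ℕ, E ⊆ Icc 1 N ∧ (E.card : ℝ) ≤ (N : ℝ) / Real.log N ^ C ∧
        ∀ b ∈ Icc 1 N, b ∉ E → ∀ Y : ℝ, Real.log N ^ K ≤ Y → Y ≤ N →
          ∀ y : ℕ → ℝ, (∀ m ∈ Icc 1 x, (1 - ε / 8) * Y ≤ y m ∧ y m ≤ Y) →
          |(∑ m ∈ Icc 1 x, R ((s m + b : ℕ) : ℝ) (y m)) / x - 1| ≤ ε) ∧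
    (∀ f : ℤ[X], 1 ≤ f.natDegree → 0 < f.leadingCoeff → ∃ K : ℕ, ∀ x N : ℕ, K ≤ x →
      N = x ^ f.natDegree →
      ∃ E : Finset ℕ, E ⊆ Icc 1 N ∧ (E.card : ℝ) ≤ (N : ℝ) / Real.log N ^ C ∧
        ∀ b ∈ Icc 1 N, b ∉ E → (∀ m ∈ Icc 1 x, 1 < f.eval (m : ℤ) + b) ∧
          ∀ Y : ℝ, Real.log N ^ K ≤ Y → Y ≤ N →
          ∀ y : ℕ → ℝ, (∀ m ∈ Icc 1 x, (1 - ε / 8) * Y ≤ y m ∧ y m ≤ Y) →
          |(∑ m ∈ Icc 1 x, R ((f.eval (m : ℤ) + b : ℤ) : ℝ) (y m)) / x - 1| ≤ ε) := by
  refine ⟨fun p hp => ?_, fun f hd hl => ?_⟩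
  · obtain ⟨K, hK⟩ := avgFam C p hp ε hε hε1
    obtain ⟨N₀, hN₀⟩ := Filter.eventually_atTop.1 (hK.and (Pool.Agent.W301.SS.ev_L 1))
    refine ⟨max K N₀, fun N hN s x hx hs hen => ?_⟩
    obtain ⟨h1, h2⟩ := hN₀ N ((le_max_right _ _).trans hN)
    have hℓ : 0 < Real.log N := by linarith
    obtain ⟨E, hE1, hE2, hE3⟩ := h1 s x hx hs hen
    refine ⟨E, hE1, by rw [le_div_iff₀ (by positivity)]; exact hE2, fun b hb hbE Y hY1 hY2 y hy => ?_⟩
    exact hE3 b hb hbE Y ((pow_le_pow_right₀ h2 (le_max_left _ _)).trans hY1) hY2 y hy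
  · obtain ⟨K, hK⟩ := polyAvg f hd hl C ε hε hε1
    obtain ⟨N₀, hN₀⟩ := Filter.eventually_atTop.1 (Pool.Agent.W301.SS.ev_L 1)
    refine ⟨max K N₀, fun x N hx hN => ?_⟩
    obtain ⟨E, hE1, hE2, hE3⟩ := hK x ((le_max_left _ _).trans hx)
    rw [← hN] at hE1 hE2 hE3
    have hxN : x ≤ N := by rw [hN]; exact Nat.le_self_pow (by omega) x
    have h2 := hN₀ N (((le_max_right _ _).trans hx).trans hxN)
    have hℓ : 0 < Real.log N := by linarith
    refine ⟨E, hE1, by rw [le_div_iff₀ (by positivity)]; exact hE2, fun b hb hbE => ?_⟩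
    obtain ⟨h3, h4⟩ := hE3 b hb hbE
    exact ⟨h3, fun Y hY1 hY2 y hy =>
      h4 Y ((pow_le_pow_right₀ h2 (le_max_left _ _)).trans hY1) hY2 y hy⟩
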